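import Pool.Agent.H38.CUBE.JJStmts2
import Pool.Agent.H33.CUBE.J_RC

/-!
# MP_47888e_al, block CONT/JJ, part 2: module RSC, substitutions in rational functions
-/

set_option autoImplicit false

open Polynomial

namespace Pool.CUBE

open Pool.CM Pool.H93.Cube

namespace F_RSC

variable {E : Type} [Field E]

/-- `ε ↦ u ε` on Laurent series -/
noncomputable def scl (u : E) (hu : u ≠ 0) : LaurentSeries E →+* LaurentSeries E where
  toFun f :=
    { coeff := fun k => u ^ k * f.coeff k
      isPWO_support' := f.isPWO_support'.mono fun k hk => by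
        rw [Function.mem_support] at hk ⊢
        exact right_ne_zero_of_mul hk }
  map_zero' := by
    ext k
    simp
  map_one' := by
    ext k
    by_cases h : k = 0
    · subst h; simp
    · simp [HahnSeries.coeff_one, h]
  map_add' f g := by
    ext k
    simp only [HahnSeries.coeff_add]
    ring
  map_mul' f g := by
    obtain ⟨a, ha⟩ := exists_bound f
    obtain ⟨b, hb⟩ := exists_bound g
    ext k
    rw [coeff_mul_Icc (a := a) (b := b) (fun k hk => by simp [ha k hk])
      (fun k hk => by simp [hb k hk])]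
    change u ^ k * (f * g).coeff k = _
    rw [coeff_mul_Icc ha hb, Finset.mul_sum]
    refine Finset.sum_congr rfl fun j _ => ?_
    have h : u ^ k = u ^ j * u ^ (k - j) := by
      rw [← zpow_add₀ hu, add_sub_cancel]
    rw [h]
    change _ = (u ^ j * f.coeff j) * (u ^ (k - j) * g.coeff (k - j))
    ring

theorem scl_coeff (u : E) (hu : u ≠ 0) (f : LaurentSeries E) (k : ℤ) :
    (scl u hu f).coeff k = u ^ k * f.coeff k := rfl

theorem scl_C (u : E) (hu : u ≠ 0) (c : E) :
    scl u hu (HahnSeries.C c) = HahnSeries.C c := by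
  ext k
  rw [scl_coeff, HahnSeries.C_apply]
  by_cases h : k = 0
  · subst h; simp
  · rw [HahnSeries.coeff_single_of_ne h, mul_zero]

theorem scl_X (u : E) (hu : u ≠ 0) :
    scl u hu (HahnSeries.single 1 1) = HahnSeries.C u * HahnSeries.single 1 1 := by
  ext k
  rw [scl_coeff, HahnSeries.C_mul_eq_smul, HahnSeries.coeff_smul, smul_eq_mul]
  by_cases h : k = 1
  · subst h; simp
  · rw [HahnSeries.coeff_single_of_ne h, mul_zero, mul_zero]

theorem affR_C (u v : E) (hu : u ≠ 0) (c : E) : affR u v hu (RatFunc.C c) = RatFunc.C c := by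
  rw [← RatFunc.algebraMap_C, J_RC.affR_algebraMap, J_RC.affP_C]

theorem affR_X (u v : E) (hu : u ≠ 0) :
    affR u v hu RatFunc.X = RatFunc.C u * RatFunc.X + RatFunc.C v := by
  conv_lhs => rw [← RatFunc.algebraMap_X]
  rw [J_RC.affR_algebraMap, J_RC.affP_X, map_add, map_mul, RatFunc.algebraMap_C,
    RatFunc.algebraMap_C, RatFunc.algebraMap_X]

theorem lexp_aff (N e : ℤ) (p : ℕ) (h : (p : E) ≠ 0) :
    (lexp N).comp (affR (p : E) (e : E) h) = (scl (p : E) h).comp (lexp (p * N + e)) := by
  refine IsLocalization.ringHom_ext (nonZeroDivisors E[X]) ?_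
  refine Polynomial.ringHom_ext (fun c => ?_) ?_
  · simp only [RingHom.comp_apply, RatFunc.algebraMap_C]
    rw [affR_C, J_RC.lexp_C, J_RC.lexp_C, scl_C]
  · simp only [RingHom.comp_apply, RatFunc.algebraMap_X]
    rw [affR_X, map_add, map_mul, J_RC.lexp_C, J_RC.lexp_C, J_RC.lexp_X, J_RC.lexp_X, map_add,
      scl_C, scl_X]
    push_cast
    rw [map_add, map_mul]
    ring

theorem lexp_aff_coeff (N k e : ℤ) (p : ℕ) (h : (p : E) ≠ 0) (r : RatFunc E) :
    (lexp N (affR (p : E) (e : E) h r)).coeff k =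
      (p : E) ^ k * (lexp (p * N + e) r).coeff k := by
  have h1 := RingHom.congr_fun (lexp_aff N e p h) r
  rw [RingHom.comp_apply, RingHom.comp_apply] at h1
  rw [h1, scl_coeff]

theorem mapR_algebraMap (φ : E →+* E) (g : E[X]) :
    mapR φ (algebraMap E[X] (RatFunc E) g) = algebraMap E[X] (RatFunc E) (g.map φ) := by
  have h : mapR φ (algebraMap E[X] (RatFunc E) g) =
      RatFunc.map (Polynomial.mapRingHom φ) (mapP_le φ) (algebraMap E[X] (RatFunc E) g) := by
    unfold mapR
    rw [RatFunc.coe_mapRingHom_eq_coe_map]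
  rw [h]
  have h1 := RatFunc.map_apply_div (Polynomial.mapRingHom φ) (mapP_le φ) g 1
  simpa using h1

theorem mapR_C (φ : E →+* E) (c : E) : mapR φ (RatFunc.C c) = RatFunc.C (φ c) := by
  rw [← RatFunc.algebraMap_C, mapR_algebraMap, Polynomial.map_C, RatFunc.algebraMap_C]

theorem mapR_X (φ : E →+* E) : mapR φ RatFunc.X = RatFunc.X := by
  conv_lhs => rw [← RatFunc.algebraMap_X]
  rw [mapR_algebraMap, Polynomial.map_X, RatFunc.algebraMap_X]

theorem lexp_mapR (φ : E →+* E) (N : ℤ) :
    (lexp N).comp (mapR φ) = (cmapR φ).comp (lexp N) := by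
  refine IsLocalization.ringHom_ext (nonZeroDivisors E[X]) ?_
  refine Polynomial.ringHom_ext (fun c => ?_) ?_
  · simp only [RingHom.comp_apply, RatFunc.algebraMap_C]
    rw [mapR_C, J_RC.lexp_C, J_RC.lexp_C, cmapR_C]
  · simp only [RingHom.comp_apply, RatFunc.algebraMap_X]
    rw [mapR_X, J_RC.lexp_X, map_add, cmapR_C, cmapR_single, map_one φ, map_intCast φ]

theorem lexp_mapR_coeff (φ : E →+* E) (N k : ℤ) (r : RatFunc E) :
    (lexp N (mapR φ r)).coeff k = φ ((lexp N r).coeff k) := by
  have h1 := RingHom.congr_fun (lexp_mapR φ N) r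
  rw [RingHom.comp_apply, RingHom.comp_apply] at h1
  rw [h1, cmapR_coeff]

theorem mapR_affR (φ : E →+* E) (k : ℤ) :
    (mapR φ).comp (affR 1 (k : E) one_ne_zero) = (affR 1 (k : E) one_ne_zero).comp (mapR φ) := by
  refine J_RC.ratHom_ext _ _ (fun c => ?_) ?_
  · rw [RingHom.comp_apply, RingHom.comp_apply, affR_C, mapR_C, affR_C]
  · rw [RingHom.comp_apply, RingHom.comp_apply, affR_X, mapR_X, affR_X, map_add, map_mul, mapR_X,
      mapR_C, mapR_C, map_one, map_intCast]

theorem affR_affR (u v u' v' : E) (h : u ≠ 0) (h' : u' ≠ 0) (h'' : u * u' ≠ 0) :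
    (affR u' v' h').comp (affR u v h) = affR (u * u') (u * v' + v) h'' := by
  refine J_RC.ratHom_ext _ _ (fun c => ?_) ?_
  · rw [RingHom.comp_apply, affR_C, affR_C, affR_C]
  · rw [RingHom.comp_apply, affR_X, affR_X, map_add, map_mul, affR_C, affR_C, affR_X, map_mul,
      map_add, map_mul]
    ring

end F_RSC

open F_RSC in
theorem rsc_thm : RSCStmt := by
  intro E _ _
  refine ⟨fun N k e p h r => lexp_aff_coeff N k e p h r, fun N e p h r => ⟨?_, fun j hj => ?_⟩,
    fun φ N k r => lexp_mapR_coeff φ N k r, fun φ j N r => ?_, fun φ k r => ?_,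
    fun φ g => mapR_algebraMap φ g, fun φ c D => ?_, fun u v u' v' h h' h'' r => ?_⟩
  · rw [Rc, Rc, lexp_aff_coeff]
    simp
  · rw [Rc] at hj ⊢
    rw [lexp_aff_coeff]
    rcases mul_eq_zero.1 hj with h1 | h1
    · rw [h1, zero_mul]
    · rw [h1, mul_zero, mul_zero]
  · rw [Rc, Rc, lexp_mapR_coeff, map_mul, map_div₀, map_pow, map_neg, map_one, map_natCast]
  · exact RingHom.congr_fun (mapR_affR φ k) r
  · rw [qq, Polynomial.map_prod]
    refine Finset.prod_congr rfl fun b _ => ?_
    rw [Polynomial.map_prod]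
    refine Finset.prod_congr rfl fun m _ => ?_
    rw [Polynomial.map_add, Polynomial.map_mul, Polynomial.map_C, Polynomial.map_C,
      Polynomial.map_X, map_intCast, map_natCast]
  · exact RingHom.congr_fun (affR_affR u v u' v' h h' h'') r

end Pool.CUBE
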