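import Pool.Agent.H38.CUBE.JJStmts2
import Pool.Agent.H33.CUBE.J_RC

/-!
# MP_47888e_al, block CONT/JJ, part 2: module PAC, closure properties of `Rint` and `PA`
-/

set_option autoImplicit false

open Polynomial

namespace Pool.CUBE

open Pool.CM Pool.H93.Cube

namespace F_PAC

variable {X : Idx} {E : Type} [Field E] (A : PF X E) (i : X.I)

/-- integral polynomials -/
def IntS : Subring E[X] where
  carrier := {g | A.Int i g}
  mul_mem' := fun ha hb => PF.Int.mul A ha hb
  one_mem' := PF.Int.one A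
  add_mem' := fun ha hb => PF.Int.add A ha hb
  zero_mem' := PF.Int.zero A
  neg_mem' := fun ha => PF.Int.neg A ha

theorem C_mem {x : E} (hx : x ∈ A.O i) : Polynomial.C x ∈ IntS A i := by
  intro n
  rw [Polynomial.coeff_C]
  split_ifs
  · exact hx
  · exact (A.O i).zero_mem

theorem X_mem : (Polynomial.X : E[X]) ∈ IntS A i := by
  intro n
  rw [Polynomial.coeff_X]
  split_ifs
  · exact (A.O i).one_mem
  · exact (A.O i).zero_mem

theorem aff_mem (N : ℤ) {g : E[X]} (hg : A.Int i g) : affP 1 (N : E) g ∈ IntS A i := by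
  change Polynomial.eval₂ Polynomial.C (Polynomial.C 1 * Polynomial.X + Polynomial.C (N : E)) g ∈ _
  rw [Polynomial.eval₂_eq_sum]
  refine (IntS A i).sum_mem fun k _ => (IntS A i).mul_mem (C_mem A i (hg k))
    ((IntS A i).pow_mem ((IntS A i).add_mem ((IntS A i).mul_mem (C_mem A i (A.O i).one_mem)
      (X_mem A i)) (C_mem A i (intCast_mem (A.O i) N))) k)

theorem rint_zero : (0 : RatFunc E) ∈ Rint A i := by
  intro N k
  rw [map_zero, HahnSeries.coeff_zero]
  exact ⟨(A.O i).zero_mem, fun _ => rfl⟩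

theorem rint_add {r s : RatFunc E} (hr : r ∈ Rint A i) (hs : s ∈ Rint A i) :
    r + s ∈ Rint A i := by
  intro N k
  rw [map_add, HahnSeries.coeff_add]
  exact ⟨(A.O i).add_mem (hr N k).1 (hs N k).1, fun hk => by
    rw [(hr N k).2 hk, (hs N k).2 hk, add_zero]⟩

theorem rint_neg {r : RatFunc E} (hr : r ∈ Rint A i) : -r ∈ Rint A i := by
  intro N k
  rw [map_neg, HahnSeries.coeff_neg]
  exact ⟨(A.O i).neg_mem (hr N k).1, fun hk => by rw [(hr N k).2 hk, neg_zero]⟩

theorem rint_mul {r s : RatFunc E} (hr : r ∈ Rint A i) (hs : s ∈ Rint A i) :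
    r * s ∈ Rint A i := by
  intro N k
  rw [map_mul, coeff_mul_Icc (a := 0) (b := 0) (fun k hk => (hr N k).2 hk)
    (fun k hk => (hs N k).2 hk)]
  refine ⟨(A.O i).sum_mem fun j _ => (A.O i).mul_mem (hr N _).1 (hs N _).1, fun hk => ?_⟩
  rw [Finset.Icc_eq_empty (by omega), Finset.sum_empty]

theorem rint_alg {g : E[X]} (hg : A.Int i g) : algebraMap E[X] (RatFunc E) g ∈ Rint A i := by
  intro N k
  rw [J_RC.lexp_algebraMap]
  refine ⟨?_, fun hk => exP_coeff_neg _ _ hk⟩
  rcases lt_or_ge k 0 with hk | hk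
  · rw [exP_coeff_neg _ _ hk]
    exact (A.O i).zero_mem
  · obtain ⟨n, rfl⟩ := Int.eq_ofNat_of_zero_le hk
    rw [exP_coeff_nat]
    exact aff_mem A i N hg n

theorem rint_natCast (n : ℕ) : (n : RatFunc E) ∈ Rint A i := by
  have h := rint_alg A i (g := (n : E[X])) (natCast_mem (IntS A i) n)
  rwa [map_natCast] at h

theorem rint_pow {r : RatFunc E} (hr : r ∈ Rint A i) (n : ℕ) : r ^ n ∈ Rint A i := by
  induction n with
  | zero =>
    rw [pow_zero]
    have h := rint_natCast A i 1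
    rwa [Nat.cast_one] at h
  | succ n ih =>
    rw [pow_succ]
    exact rint_mul A i ih hr

variable {M : ℕ}

theorem pa_add {d : ℕ} {r s : RatFunc E} (hr : PA A i M d r) (hs : PA A i M d s) :
    PA A i M d (r + s) := by
  obtain ⟨g, hg, hgd, r1, hr1, e1⟩ := hr
  obtain ⟨g', hg', hgd', s1, hs1, e2⟩ := hs
  refine ⟨g + g', PF.Int.add A hg hg', (Polynomial.natDegree_add_le _ _).trans (max_le hgd hgd'),
    r1 + s1, rint_add A i hr1 hs1, ?_⟩
  rw [e1, e2, map_add]
  ring

theorem pa_mono {d d' : ℕ} {r : RatFunc E} (h : d ≤ d') (hr : PA A i M d r) :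
    PA A i M d' r := by
  obtain ⟨g, hg, hgd, r1, hr1, e1⟩ := hr
  exact ⟨g, hg, hgd.trans h, r1, hr1, e1⟩

theorem pa_alg {g : E[X]} {d : ℕ} (hg : A.Int i g) (hd : g.natDegree ≤ d) :
    PA A i M d (algebraMap E[X] (RatFunc E) g) :=
  ⟨g, hg, hd, 0, rint_zero A i, by rw [mul_zero, add_zero]⟩

theorem pa_C {x : E} (hx : x ∈ A.O i) : PA A i M 0 (RatFunc.C x) := by
  rw [← RatFunc.algebraMap_C]
  exact pa_alg A i (C_mem A i hx) (by rw [Polynomial.natDegree_C])

theorem pa_rint {d : ℕ} {r : RatFunc E} (hr : PA A i M d r) : r ∈ Rint A i := by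
  obtain ⟨g, hg, _, r1, hr1, e1⟩ := hr
  rw [e1]
  exact rint_add A i (rint_alg A i hg)
    (rint_mul A i (rint_pow A i (rint_natCast A i _) M) hr1)

theorem pa_mul {d d' : ℕ} {r s : RatFunc E} (hr : PA A i M d r) (hs : PA A i M d' s) :
    PA A i M (d + d') (r * s) := by
  have hs' := pa_rint A i hs
  obtain ⟨g, hg, hgd, r1, hr1, e1⟩ := hr
  obtain ⟨g', hg', hgd', s1, hs1, e2⟩ := hs
  refine ⟨g * g', PF.Int.mul A hg hg', Polynomial.natDegree_mul_le.trans (add_le_add hgd hgd'),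
    algebraMap E[X] (RatFunc E) g * s1 + r1 * s,
    rint_add A i (rint_mul A i (rint_alg A i hg) hs1) (rint_mul A i hr1 hs'), ?_⟩
  rw [e1, e2, map_mul]
  ring

theorem pa_sum {d : ℕ} {ι : Type} (s : Finset ι) (f : ι → RatFunc E)
    (h : ∀ x ∈ s, PA A i M d (f x)) : PA A i M d (∑ x ∈ s, f x) := by
  classical
  induction s using Finset.induction_on with
  | empty =>
    rw [Finset.sum_empty]
    refine ⟨0, PF.Int.zero A, by rw [Polynomial.natDegree_zero]; exact Nat.zero_le _, 0,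
      rint_zero A i, ?_⟩
    rw [map_zero, mul_zero, add_zero]
  | insert a s ha ih =>
    rw [Finset.sum_insert ha]
    exact pa_add A i (h a (Finset.mem_insert_self _ _))
      (ih fun x hx => h x (Finset.mem_insert_of_mem hx))

theorem pa_prod {d : ℕ} (s : ℕ) (f : Fin s → RatFunc E) (h : ∀ x, PA A i M d (f x)) :
    PA A i M (s * d) (∏ x, f x) := by
  induction s with
  | zero =>
    rw [Fin.prod_univ_zero, Nat.zero_mul]
    have h1 := pa_C A i (M := M) (A.O i).one_mem
    rwa [map_one] at h1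
  | succ s ih =>
    rw [Fin.prod_univ_succ, Nat.succ_mul, Nat.add_comm]
    exact pa_mul A i (h 0) (ih _ fun x => h _)

/-! ### the inverse of `b + p m X` -/

theorem inv_mem [CharZero E] (hA : A.Ax) {c : ℤ} (hc : ¬ (X.p i : ℤ) ∣ c) :
    (c : E) ≠ 0 ∧ ((c : E))⁻¹ ∈ A.O i := by
  have h1 : ¬ X.p i ∣ c.natAbs := by
    intro h
    exact hc (Int.natCast_dvd.2 h)
  have h2 : (((c.natAbs : ℕ) : E))⁻¹ ∈ A.O i := hA.pol_O _ _ _ (hA.pol_inv i _ h1)
  refine ⟨?_, ?_⟩
  · intro h
    rw [Int.cast_eq_zero] at h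
    subst h
    exact hc (dvd_zero _)
  · rcases Int.natAbs_eq c with h | h
    · have h3 : (c : E) = ((c.natAbs : ℕ) : E) := by
        conv_lhs => rw [h]
        rw [Int.cast_natCast]
      rwa [h3]
    · have h3 : (c : E) = -((c.natAbs : ℕ) : E) := by
        conv_lhs => rw [h]
        rw [Int.cast_neg, Int.cast_natCast]
      rw [h3, inv_neg]
      exact (A.O i).neg_mem h2

/-- the geometric series `1 / (b + c ε)` -/
noncomputable def geo (b c : E) : LaurentSeries E :=
  HahnSeries.ofPowerSeries ℤ E (PowerSeries.mk fun k => (-c) ^ k * (b⁻¹) ^ (k + 1))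

theorem geo_mul (b c : E) (hb : b ≠ 0) :
    (HahnSeries.C b + HahnSeries.C c * HahnSeries.single 1 1) * geo b c = 1 := by
  have h : (HahnSeries.C b + HahnSeries.C c * HahnSeries.single 1 1 : LaurentSeries E) =
      HahnSeries.ofPowerSeries ℤ E (PowerSeries.C b + PowerSeries.C c * PowerSeries.X) := by
    rw [map_add, map_mul, HahnSeries.ofPowerSeries_C, HahnSeries.ofPowerSeries_C,
      HahnSeries.ofPowerSeries_X]
  rw [h, geo, ← map_mul]
  have h1 : (PowerSeries.C b + PowerSeries.C c * PowerSeries.X) *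
      (PowerSeries.mk fun k => (-c) ^ k * (b⁻¹) ^ (k + 1)) = 1 := by
    ext n
    rw [add_mul, mul_assoc, map_add, PowerSeries.coeff_C_mul, PowerSeries.coeff_C_mul,
      PowerSeries.coeff_mk]
    cases n with
    | zero =>
      rw [PowerSeries.coeff_zero_X_mul, PowerSeries.coeff_one, if_pos rfl]
      simp [hb]
    | succ n =>
      rw [PowerSeries.coeff_succ_X_mul, PowerSeries.coeff_mk, PowerSeries.coeff_one,
        if_neg (Nat.succ_ne_zero n)]
      have h2 : b * ((-c) ^ (n + 1) * (b⁻¹) ^ (n + 1 + 1)) =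
          (-c) ^ (n + 1) * (b⁻¹) ^ (n + 1) * (b * b⁻¹) := by ring
      rw [h2, mul_inv_cancel₀ hb]
      ring
  rw [h1, map_one]

theorem geo_coeff_nat (b c : E) (n : ℕ) :
    (geo b c).coeff (n : ℤ) = (-c) ^ n * (b⁻¹) ^ (n + 1) := by
  rw [geo, HahnSeries.ofPowerSeries_apply_coeff, PowerSeries.coeff_mk]

theorem geo_coeff_neg (b c : E) (k : ℤ) (hk : k < 0) : (geo b c).coeff k = 0 := by
  rw [geo, HahnSeries.ofPowerSeries_apply]
  refine HahnSeries.embDomain_of_notMem_range ?_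
  rintro ⟨n, hn⟩
  have : (n : ℤ) = k := hn
  omega

theorem rint_inv [CharZero E] (hA : A.Ax) (b m : ℤ) (hb : ¬ (X.p i : ℤ) ∣ b) :
    ((b : RatFunc E) + (X.p i : RatFunc E) * (m : RatFunc E) * RatFunc.X)⁻¹ ∈ Rint A i := by
  intro N k
  have hb' : ¬ (X.p i : ℤ) ∣ b + X.p i * m * N := by
    intro h
    refine hb ?_
    have h1 : (X.p i : ℤ) ∣ X.p i * m * N := by
      rw [mul_assoc]
      exact dvd_mul_right _ _
    exact (dvd_add_left h1).1 h
  obtain ⟨h0, h1⟩ := inv_mem A i hA hb'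
  have h2 : lexp N ((b : RatFunc E) + (X.p i : RatFunc E) * (m : RatFunc E) * RatFunc.X) =
      HahnSeries.C ((b + X.p i * m * N : ℤ) : E) +
        HahnSeries.C ((X.p i * m : ℤ) : E) * HahnSeries.single 1 1 := by
    rw [map_add, map_mul, map_mul, J_RC.lexp_X, map_intCast, map_intCast, map_natCast]
    push_cast
    simp only [map_add, map_mul, map_intCast, map_natCast]
    ring
  have h3 : lexp N (((b : RatFunc E) + (X.p i : RatFunc E) * (m : RatFunc E) * RatFunc.X)⁻¹) =
      geo ((b + X.p i * m * N : ℤ) : E) ((X.p i * m : ℤ) : E) := by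
    rw [map_inv₀, h2]
    exact inv_eq_of_mul_eq_one_right (geo_mul _ _ h0)
  rw [h3]
  refine ⟨?_, fun hk => geo_coeff_neg _ _ k hk⟩
  rcases lt_or_ge k 0 with hk | hk
  · rw [geo_coeff_neg _ _ k hk]
    exact (A.O i).zero_mem
  · obtain ⟨n, rfl⟩ := Int.eq_ofNat_of_zero_le hk
    rw [geo_coeff_nat]
    exact (A.O i).mul_mem ((A.O i).pow_mem ((A.O i).neg_mem (intCast_mem _ _)) _)
      ((A.O i).pow_mem h1 _)

theorem pa_inv [CharZero E] (hA : A.Ax) (b m : ℤ) (hb : ¬ (X.p i : ℤ) ∣ b) :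
    PA A i M M ((b : RatFunc E) + (X.p i : RatFunc E) * (m : RatFunc E) * RatFunc.X)⁻¹ := by
  obtain ⟨h0, h1⟩ := inv_mem A i hA hb
  have hbR : (b : RatFunc E) ≠ 0 := by
    intro h
    have h2 : RatFunc.C (b : E) = RatFunc.C (0 : E) := by
      rw [map_intCast, map_zero]
      exact h
    exact h0 (RatFunc.C_injective h2)
  have hy : ((b : RatFunc E) + (X.p i : RatFunc E) * (m : RatFunc E) * RatFunc.X) ≠ 0 := by
    have h2 : (Polynomial.C (b : E) + Polynomial.C ((X.p i : E) * (m : E)) * Polynomial.X) ≠ 0 := by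
      intro h
      have h3 := congrArg (fun q : E[X] => q.coeff 0) h
      simp only [Polynomial.coeff_add, Polynomial.coeff_C_zero, Polynomial.mul_coeff_zero,
        Polynomial.coeff_X_zero, mul_zero, add_zero, Polynomial.coeff_zero] at h3
      exact h0 h3
    have h3 := RatFunc.algebraMap_ne_zero h2
    rw [map_add, map_mul, RatFunc.algebraMap_C, RatFunc.algebraMap_C, RatFunc.algebraMap_X,
      map_mul, map_intCast, map_natCast, map_intCast] at h3
    exact h3
  refine ⟨∑ k ∈ Finset.range M,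
    Polynomial.C ((b : E)⁻¹ * (-((X.p i : E) * (m : E) * (b : E)⁻¹)) ^ k) * Polynomial.X ^ k,
    ?_, ?_, algebraMap E[X] (RatFunc E)
      (Polynomial.C ((-((m : E) * (b : E)⁻¹)) ^ M) * Polynomial.X ^ M) *
      ((b : RatFunc E) + (X.p i : RatFunc E) * (m : RatFunc E) * RatFunc.X)⁻¹, ?_, ?_⟩
  · refine (IntS A i).sum_mem fun k _ => (IntS A i).mul_mem (C_mem A i ?_)
      ((IntS A i).pow_mem (X_mem A i) k)
    exact (A.O i).mul_mem h1 ((A.O i).pow_mem ((A.O i).neg_mem ((A.O i).mul_mem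
      ((A.O i).mul_mem (natCast_mem _ _) (intCast_mem _ _)) h1)) k)
  · refine Polynomial.natDegree_sum_le_of_forall_le _ _ fun k hk => ?_
    exact (Polynomial.natDegree_C_mul_X_pow_le _ _).trans (Finset.mem_range.1 hk).le
  · refine rint_mul A i (rint_alg A i ?_) (rint_inv A i hA b m hb)
    exact (IntS A i).mul_mem (C_mem A i ((A.O i).pow_mem ((A.O i).neg_mem ((A.O i).mul_mem
      (intCast_mem _ _) h1)) M)) ((IntS A i).pow_mem (X_mem A i) M)
  · rw [map_sum]
    simp only [map_mul, map_pow, map_neg, RatFunc.algebraMap_C, RatFunc.algebraMap_X, map_inv₀,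
      map_intCast, map_natCast]
    set y : RatFunc E := (b : RatFunc E) + (X.p i : RatFunc E) * (m : RatFunc E) * RatFunc.X
      with hyd
    set q : RatFunc E := -((X.p i : RatFunc E) * (m : RatFunc E) * (b : RatFunc E)⁻¹) * RatFunc.X
      with hqd
    have hyq : y = (b : RatFunc E) * (1 - q) := by
      rw [hyd, hqd]
      have h5 : (b : RatFunc E) * (1 - -((X.p i : RatFunc E) * (m : RatFunc E) *
          (b : RatFunc E)⁻¹) * RatFunc.X) = (b : RatFunc E) + (X.p i : RatFunc E) *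
          (m : RatFunc E) * ((b : RatFunc E) * (b : RatFunc E)⁻¹) * RatFunc.X := by ring
      rw [h5, mul_inv_cancel₀ hbR, mul_one]
    have hs : ∑ k ∈ Finset.range M, (b : RatFunc E)⁻¹ *
        (-((X.p i : RatFunc E) * (m : RatFunc E) * (b : RatFunc E)⁻¹)) ^ k * RatFunc.X ^ k =
        (b : RatFunc E)⁻¹ * ∑ k ∈ Finset.range M, q ^ k := by
      rw [Finset.mul_sum]
      refine Finset.sum_congr rfl fun k _ => ?_
      rw [hqd, mul_pow]
      ring
    have hr : (X.p i : RatFunc E) ^ M * ((-((m : RatFunc E) * (b : RatFunc E)⁻¹)) ^ M *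
        RatFunc.X ^ M * y⁻¹) = q ^ M * y⁻¹ := by
      rw [hqd, mul_pow, ← mul_assoc, ← mul_assoc, ← mul_pow]
      congr 3
      ring
    rw [hs, hr]
    have hg := geom_sum_mul_neg q M
    have h6 : y⁻¹ * y = 1 := inv_mul_cancel₀ hy
    have h7 : ((b : RatFunc E)⁻¹ * ∑ k ∈ Finset.range M, q ^ k + q ^ M * y⁻¹) * y = 1 := by
      rw [add_mul, mul_assoc (q ^ M), h6, mul_one]
      conv_lhs => rw [hyq]
      have h8 : (b : RatFunc E)⁻¹ * (∑ k ∈ Finset.range M, q ^ k) * ((b : RatFunc E) * (1 - q)) =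
          ((b : RatFunc E) * (b : RatFunc E)⁻¹) * ((∑ k ∈ Finset.range M, q ^ k) * (1 - q)) := by
        ring
      rw [h8, mul_inv_cancel₀ hbR, one_mul, hg]
      ring
    exact (eq_inv_of_mul_eq_one_left h7).symm

end F_PAC

open F_PAC in
theorem pac_thm : PACStmt := by
  intro X E _ _ A hA i M
  exact ⟨fun d r s => pa_add A i, fun d d' r s => pa_mul A i, fun d d' r => pa_mono A i,
    fun g d => pa_alg A i, fun x => pa_C A i, fun b m => pa_inv A i hA b m,
    fun d ι s f => pa_sum A i s f, fun d s f => pa_prod A i s f,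
    fun r s hr hs => ⟨rint_add A i hr hs, rint_mul A i hr hs, rint_neg A i hr⟩,
    fun d r => pa_rint A i⟩

end Pool.CUBE
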