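import Pool.Agent.H38.CUBE.JJStmts

/-!
# MP_47888e_al, block JJ, modules IOS and IOF
-/

set_option autoImplicit false

open Polynomial

namespace Pool.CUBE

open Pool.CM Pool.H93.Cube

namespace J_IOS

variable {n : ℕ} {E : Type} [Field E]

theorem io_monomial (a : Fin (n + 1) →₀ ℕ) (r : E) :
    Io (MvPolynomial.monomial a r) =
      r * ((∏ i, ((a i).factorial : E)) / ((a.degree + n).factorial : E)) := by
  rw [Io, linMon_monomial, smul_eq_mul]

theorem prod_fact_single (a : Fin (n + 1) →₀ ℕ) (i : Fin (n + 1)) :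
    (∏ j, (((Finsupp.single i 1 + a : Fin (n + 1) →₀ ℕ) j).factorial : E)) =
      ((a i + 1 : ℕ) : E) * ∏ j, ((a j).factorial : E) := by
  classical
  rw [← Finset.mul_prod_erase Finset.univ (fun j => ((a j).factorial : E)) (Finset.mem_univ i),
    ← Finset.mul_prod_erase Finset.univ (fun j => (((Finsupp.single i 1 + a : Fin (n + 1) →₀ ℕ) j).factorial : E))
      (Finset.mem_univ i)]
  have h1 : (Finsupp.single i 1 + a : Fin (n + 1) →₀ ℕ) i = a i + 1 := by
    simp [add_comm]
  have h2 : ∏ j ∈ Finset.univ.erase i, (((Finsupp.single i 1 + a : Fin (n + 1) →₀ ℕ) j).factorial : E) =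
      ∏ j ∈ Finset.univ.erase i, ((a j).factorial : E) := by
    refine Finset.prod_congr rfl fun j hj => ?_
    have hj' : j ≠ i := (Finset.mem_erase.1 hj).1
    have : (Finsupp.single i 1 + a : Fin (n + 1) →₀ ℕ) j = a j := by
      simp [Ne.symm hj']
    rw [this]
  rw [h2, h1, Nat.factorial_succ]
  push_cast
  ring

theorem degree_single_add (a : Fin (n + 1) →₀ ℕ) (i : Fin (n + 1)) :
    (Finsupp.single i 1 + a).degree = a.degree + 1 := by
  rw [map_add, Finsupp.degree_single, add_comm]

theorem x_mul_monomial (a : Fin (n + 1) →₀ ℕ) (i : Fin (n + 1)) (r : E) :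
    (MvPolynomial.X i : MvPolynomial (Fin (n + 1)) E) * MvPolynomial.monomial a r =
      MvPolynomial.monomial (Finsupp.single i 1 + a) r := by
  rw [MvPolynomial.X, MvPolynomial.monomial_mul, one_mul]

theorem io_x_monomial (a : Fin (n + 1) →₀ ℕ) (i : Fin (n + 1)) (r : E) :
    Io (MvPolynomial.X i * MvPolynomial.monomial a r) =
      r * (((a i + 1 : ℕ) : E) * (∏ j, ((a j).factorial : E)) /
        ((a.degree + 1 + n).factorial : E)) := by
  rw [x_mul_monomial, io_monomial, prod_fact_single, degree_single_add]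

theorem degree_eq_sum' (a : Fin (n + 1) →₀ ℕ) : a.degree = ∑ i, a i := by
  rw [Finsupp.degree_eq_sum]

theorem ios1 [CharZero E] (g : MvPolynomial (Fin (n + 1)) E) :
    Io (SigP n E * g) = Io g := by
  induction g using MvPolynomial.induction_on' with
  | monomial a r =>
    rw [SigP, Finset.sum_mul, map_sum, io_monomial]
    simp only [io_x_monomial]
    rw [← Finset.mul_sum]
    congr 1
    rw [← Finset.sum_div, ← Finset.sum_mul]
    have h1 : (∑ i, ((a i + 1 : ℕ) : E)) = ((a.degree + n + 1 : ℕ) : E) := by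
      rw [degree_eq_sum', ← Nat.cast_sum, Finset.sum_add_distrib]
      simp
      ring
    rw [h1]
    have h2 : (((a.degree + 1 + n).factorial : ℕ) : E) =
        ((a.degree + n + 1 : ℕ) : E) * ((a.degree + n).factorial : E) := by
      rw [show a.degree + 1 + n = (a.degree + n) + 1 by ring, Nat.factorial_succ]
      push_cast
      ring
    rw [h2]
    have h3 : ((a.degree + n + 1 : ℕ) : E) ≠ 0 := Nat.cast_ne_zero.2 (by omega)
    rw [mul_div_mul_left _ _ h3]
  | add p q hp hq => rw [mul_add, map_add, map_add, hp, hq]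

theorem deg_of_hom {m : ℕ} (g : MvPolynomial (Fin m) E) (d : ℕ) (hg : g.IsHomogeneous d)
    (a : Fin m →₀ ℕ) (ha : a ∈ g.support) : a.degree = d := by
  by_contra h
  exact (MvPolynomial.mem_support_iff.1 ha) (hg.coeff_eq_zero h)

theorem ios2 [CharZero E] (g : MvPolynomial (Fin (n + 1)) E) (i : Fin (n + 1)) (d : ℕ)
    (hg : g.IsHomogeneous d) :
    Io (ez i g + g) = ((d + n + 1 : ℕ) : E) * Io (MvPolynomial.X i * g) := by
  have key : ∀ a : Fin (n + 1) →₀ ℕ, a.degree = d → ∀ r : E,
      Io (ez i (MvPolynomial.monomial a r) + MvPolynomial.monomial a r) =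
        ((d + n + 1 : ℕ) : E) * Io (MvPolynomial.X i * MvPolynomial.monomial a r) := by
    intro a ha r
    rw [ez_monomial, ← map_add (MvPolynomial.monomial a), io_monomial, io_x_monomial, ha]
    have h2 : (((d + 1 + n).factorial : ℕ) : E) =
        ((d + n + 1 : ℕ) : E) * ((d + n).factorial : E) := by
      rw [show d + 1 + n = (d + n) + 1 by ring, Nat.factorial_succ]
      push_cast
      ring
    rw [h2]
    have h3 : ((d + n + 1 : ℕ) : E) ≠ 0 := Nat.cast_ne_zero.2 (by omega)
    have h4 : ((d + n).factorial : E) ≠ 0 := Nat.cast_ne_zero.2 (Nat.factorial_ne_zero _)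
    field_simp
    push_cast
    ring
  conv_lhs => rw [← MvPolynomial.support_sum_monomial_coeff g]
  conv_rhs => rw [← MvPolynomial.support_sum_monomial_coeff g]
  rw [map_sum, ← Finset.sum_add_distrib, map_sum, Finset.mul_sum, map_sum, Finset.mul_sum]
  exact Finset.sum_congr rfl fun a ha => key a (deg_of_hom g d hg a ha) _

/-- the face map on monomials -/
theorem face_monomial (a : Fin (n + 2) →₀ ℕ) (r : E) :
    (MvPolynomial.aeval (Fin.cases 0 MvPolynomial.X) (MvPolynomial.monomial a r) :
      MvPolynomial (Fin (n + 1)) E) =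
      if a 0 = 0 then MvPolynomial.monomial (Finsupp.tail a) r else 0 := by
  rw [MvPolynomial.aeval_monomial, Finsupp.prod_fintype _ _ (fun i => pow_zero _),
    Fin.prod_univ_succ]
  simp only [Fin.cases_zero, Fin.cases_succ]
  split_ifs with h
  · rw [h, pow_zero, one_mul, MvPolynomial.algebraMap_eq]
    have : (∏ i : Fin (n + 1), (MvPolynomial.X i : MvPolynomial (Fin (n + 1)) E) ^ (a i.succ)) =
        MvPolynomial.monomial (Finsupp.tail a) 1 := by
      rw [MvPolynomial.monomial_eq, MvPolynomial.C_1, one_mul,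
        Finsupp.prod_fintype _ _ (fun i => pow_zero _)]
      rfl
    rw [this, MvPolynomial.C_mul_monomial, mul_one]
  · rw [zero_pow h, zero_mul, mul_zero]

theorem iof [CharZero E] (h : MvPolynomial (Fin (n + 2)) E) (d : ℕ) (hh : h.IsHomogeneous d) :
    Io (MvPolynomial.pderiv 0 h) = ((d + n + 1 : ℕ) : E) * Io h -
      Io (MvPolynomial.aeval (Fin.cases 0 MvPolynomial.X) h : MvPolynomial (Fin (n + 1)) E) := by
  have key : ∀ a : Fin (n + 2) →₀ ℕ, a.degree = d → ∀ r : E,
      Io (MvPolynomial.pderiv 0 (MvPolynomial.monomial a r)) =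
        ((d + n + 1 : ℕ) : E) * Io (MvPolynomial.monomial a r) -
      Io (MvPolynomial.aeval (Fin.cases 0 MvPolynomial.X) (MvPolynomial.monomial a r) :
        MvPolynomial (Fin (n + 1)) E) := by
    intro a ha r
    rw [MvPolynomial.pderiv_monomial, io_monomial, io_monomial, face_monomial]
    have h3 : ((d + n + 1 : ℕ) : E) ≠ 0 := Nat.cast_ne_zero.2 (by omega)
    have h4 : ((d + n).factorial : E) ≠ 0 := Nat.cast_ne_zero.2 (Nat.factorial_ne_zero _)
    have h2 : (((d + (n + 1)).factorial : ℕ) : E) =
        ((d + n + 1 : ℕ) : E) * ((d + n).factorial : E) := by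
      rw [show d + (n + 1) = (d + n) + 1 by ring, Nat.factorial_succ]
      push_cast
      ring
    by_cases h0 : a 0 = 0
    · rw [if_pos h0, io_monomial, h0]
      have h5 : (Finsupp.tail a).degree = d := by
        have h51 : ∑ i : Fin (n + 2), a i = a 0 + ∑ i : Fin (n + 1), a i.succ := Fin.sum_univ_succ _
        rw [← ha, Finsupp.degree_eq_sum, Finsupp.degree_eq_sum, h51, h0, zero_add]
        rfl
      have h6 : (∏ i : Fin (n + 2), ((a i).factorial : E)) =
          ∏ i : Fin (n + 1), (((Finsupp.tail a) i).factorial : E) := by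
        rw [Fin.prod_univ_succ, h0]
        simp [Finsupp.tail_apply]
      rw [h5, h6, ha, h2]
      simp only [Nat.cast_zero, mul_zero, zero_mul]
      field_simp
      ring
    · rw [if_neg h0, LinearMap.map_zero, sub_zero, ha, h2]
      obtain ⟨b, hb⟩ : ∃ b : Fin (n + 2) →₀ ℕ, a = Finsupp.single 0 1 + b := by
        refine ⟨a - Finsupp.single 0 1, ?_⟩
        ext k
        by_cases hk : k = 0
        · subst hk
          simp
          omega
        · simp [Ne.symm hk]
      have h7 : a - Finsupp.single 0 1 = b := by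
        rw [hb, add_tsub_cancel_left]
      have h8 : b.degree + 1 = d := by
        rw [← ha, hb, degree_single_add]
      have h9 : b.degree + (n + 1) = d + n := by omega
      have h10 : a 0 = b 0 + 1 := by
        rw [hb]
        simp [add_comm]
      have h11 : (∏ i : Fin (n + 2), ((a i).factorial : E)) =
          ((b 0 + 1 : ℕ) : E) * ∏ j, ((b j).factorial : E) := by
        rw [hb]
        exact prod_fact_single b 0
      rw [h7, h9, h10, h11]
      field_simp
  conv_lhs => rw [← MvPolynomial.support_sum_monomial_coeff h]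
  conv_rhs => rw [← MvPolynomial.support_sum_monomial_coeff h]
  rw [map_sum, map_sum, map_sum, Finset.mul_sum, map_sum, map_sum, ← Finset.sum_sub_distrib]
  exact Finset.sum_congr rfl fun a ha => key a (deg_of_hom h d hh a ha) _

end J_IOS

theorem ios_thm : IOSStmt := fun _ _ _ _ g =>
  ⟨J_IOS.ios1 g, fun i d hg => J_IOS.ios2 g i d hg⟩

theorem iof_thm : IOFStmt := fun _ _ _ _ h d hh => J_IOS.iof h d hh

end Pool.CUBE
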